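import Pool.Agent.Helper52.PG.Goals

/-!
PROJECT C2, packet PH-CUT: regions of a special diagram and sums over permutations.
-/

namespace Pool.Agent.Helper87.PG

open Pool.Agent.Helper36.SC Pool.Agent.Helper37.Arb Pool.Agent.Helper52.C2 Pool.Agent.Helper99.PG
open Pool.Agent.Helper52.PG
open scoped Classical

/-- a function on corners with the four invariances is constant on regions -/
theorem const_region {V : Type} (D : AltDiagram V) (hpos : ∀ v, D.pos v = true) (α : Type)
    (h : V × Corner → α) (hl : ∀ v, h (v, .left) = h (D.underNext v, .left))
    (hr : ∀ v, h (v, .right) = h (D.overNext v, .right))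
    (ho : ∀ v, h (v, .front) = h (D.overNext v, .back))
    (hu : ∀ v, h (v, .front) = h (D.underNext v, .back)) (c c' : V × Corner)
    (hc : D.region c = D.region c') : h c = h c' := by
  have h1 : Relation.EqvGen D.SameSide c c' := Quotient.exact hc
  clear hc
  induction h1 with
  | rel _ _ h' =>
    cases h' with
    | overLeft v => simpa [hpos] using ho v
    | overRight v => simpa [hpos] using hr v
    | underLeft v => simpa [hpos] using hl v
    | underRight v => simpa [hpos] using hu v
  | refl _ => rfl
  | symm _ _ _ ih => exact ih.symm
  | trans _ _ _ _ _ ih1 ih2 => exact ih1.trans ih2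

/-- type of a corner -/
def ctype : Corner → ℕ
  | .left => 0
  | .right => 1
  | .front => 2
  | .back => 2

theorem goalTypes : GoalTypes := by
  intro V D hpos
  refine ⟨fun v w => ?_, fun α h hl hr ho hu c c' hc => const_region D hpos α h hl hr ho hu c c' hc⟩
  have key : ∀ c c' : V × Corner, D.region c = D.region c' → ctype c.2 = ctype c'.2 :=
    fun c c' hc => const_region D hpos ℕ (fun c => ctype c.2) (fun _ => rfl) (fun _ => rfl)
      (fun _ => rfl) (fun _ => rfl) c c' hc
  refine ⟨fun h => ?_, fun h => ?_, fun h => ?_, fun h => ?_, fun h => ?_⟩ <;>
    · have := key _ _ h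
      simp [ctype] at this

section perm

variable {V : Type} [Fintype V]

/-- the sum over a permutation: a function that is constant along all steps but two -/
theorem step_eq (α : Equiv.Perm (Option V)) {l a : V} (hl : α (some l) = none)
    (ha : α none = some a) (w : V → ℝ) (hw : ∀ v v', α (some v) = some v' → w v = w v') :
    w l = w a := by
  let g : Option V → ℝ := fun x => x.elim (w a) w
  have h0 : ∑ x, (g (α x) - g x) = 0 := by
    rw [Finset.sum_sub_distrib, Equiv.sum_comp α g, sub_self]
  have h1 : ∑ x, (g (α x) - g x) = g (α (some l)) - g (some l) := by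
    refine Finset.sum_eq_single (some l) (fun x _ hx => ?_) (fun h => absurd (Finset.mem_univ _) h)
    rcases x with _ | v
    · rw [ha]
      simp [g]
    · rcases h2 : α (some v) with _ | v'
      · exact absurd (α.injective (h2.trans hl.symm)) hx
      · simp only [g, Option.elim]
        rw [hw v v' h2, sub_self]
  rw [h1, hl] at h0
  simp only [g, Option.elim] at h0
  linarith

omit [Fintype V] in
theorem exists_none (α : Equiv.Perm (Option V)) {l : V} (hl : α (some l) = none) :
    ∃ a, α none = some a := by
  rcases h : α none with _ | a
  · exact absurd (α.injective (h.trans hl.symm)) (by simp)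
  · exact ⟨a, rfl⟩

/-- summation by parts -/
theorem sum_parts {E : Type} [Fintype E] (α β : Equiv.Perm E) (χ χ' N S : E → ℝ)
    (hα : ∀ x, χ' (α x) = χ x) (hβ : ∀ x, χ' (β x) = χ x) :
    ∑ x, χ x * (N x - S (β x)) = ∑ x, χ x * (N x - S (α x)) := by
  have key : ∀ γ : Equiv.Perm E, (∀ x, χ' (γ x) = χ x) →
      ∑ x, χ x * (N x - S (γ x)) = ∑ x, χ x * N x - ∑ x, χ' x * S x := by
    intro γ hγ
    rw [← Equiv.sum_comp γ (fun x => χ' x * S x), ← Finset.sum_sub_distrib]
    refine Finset.sum_congr rfl fun x _ => ?_
    rw [hγ x]
    ring
  rw [key β hβ, key α hα]

end perm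

section skel

variable {V : Type} [Fintype V] [DecidableEq V] (S : Skel V)

/-- region of the front in the region `R` -/
noncomputable def chF (R : S.D.Region) (x : Option V) : ℝ := if S.D.region (x, .front) = R then 1 else 0
/-- region of the back in the region `R` -/
noncomputable def chB (R : S.D.Region) (x : Option V) : ℝ := if S.D.region (x, .back) = R then 1 else 0

theorem region_over (x : Option V) :
    S.D.region (x, .front) = S.D.region (S.D.overNext x, .back) := by
  refine Quotient.sound (Relation.EqvGen.rel _ _ ?_)
  simpa [S.pos] using AltDiagram.SameSide.overLeft (D := S.D) x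

theorem region_under (x : Option V) :
    S.D.region (x, .front) = S.D.region (S.D.underNext x, .back) := by
  refine Quotient.sound (Relation.EqvGen.rel _ _ ?_)
  simpa [S.pos] using AltDiagram.SameSide.underRight (D := S.D) x

theorem ch_over (R : S.D.Region) (x : Option V) : chB S R (S.D.overNext x) = chF S R x := by
  rw [chB, chF, region_over]

theorem ch_under (R : S.D.Region) (x : Option V) : chB S R (S.D.underNext x) = chF S R x := by
  rw [chB, chF, region_under]

end skel

theorem goalCutFn : GoalCutFn := by
  intro _ V _ _ S n s w e hβ hα
  obtain ⟨a, ha⟩ := exists_none S.D.underNext S.hl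
  obtain ⟨b, hb⟩ := exists_none S.D.overNext S.hr
  have hw : w S.l = w a := step_eq S.D.underNext S.hl ha w fun v v' h => (hα v v' h).1
  have he : e S.r = e b := step_eq S.D.overNext S.hr hb e fun v v' h => (hβ v v' h).1
  let N : Option V → ℝ := fun x => x.elim 0 n
  let T : Option V → ℝ := fun x => x.elim 0 s
  -- front
  have hs : s b = s a := by
    have h0 := sum_parts S.D.underNext S.D.overNext (chF S (S.D.region (none, .front)))
      (chB S (S.D.region (none, .front))) N T (ch_under S _) (ch_over S _)
    have hn : chF S (S.D.region (none, .front)) none = 1 := if_pos rfl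
    have hn' : chB S (S.D.region (none, .front)) none = 0 := if_neg fun h => S.cut h.symm
    have hl : chF S (S.D.region (none, .front)) (some S.l) = 0 := by
      rw [← ch_under, S.hl, hn']
    have hr : chF S (S.D.region (none, .front)) (some S.r) = 0 := by
      rw [← ch_over, S.hr, hn']
    rw [Finset.sum_eq_single none, Finset.sum_eq_single none, hn, ha, hb] at h0
    · simp only [N, T, Option.elim] at h0
      linarith
    · intro x _ hx
      rcases x with _ | v
      · exact absurd rfl hx
      · rcases h2 : S.D.underNext (some v) with _ | v'
        · have : some v = some S.l := S.D.underNext.injective (h2.trans S.hl.symm)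
          rw [this, hl, zero_mul]
        · simp only [N, T, Option.elim]
          rw [(hα v v' h2).2, sub_self, mul_zero]
    · intro h
      exact absurd (Finset.mem_univ _) h
    · intro x _ hx
      rcases x with _ | v
      · exact absurd rfl hx
      · rcases h2 : S.D.overNext (some v) with _ | v'
        · have : some v = some S.r := S.D.overNext.injective (h2.trans S.hr.symm)
          rw [this, hr, zero_mul]
        · simp only [N, T, Option.elim]
          rw [(hβ v v' h2).2, sub_self, mul_zero]
    · intro h
      exact absurd (Finset.mem_univ _) h
  -- back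
  have hnn : n S.r = n S.l := by
    have h0 := sum_parts S.D.underNext S.D.overNext (chF S (S.D.region (none, .back)))
      (chB S (S.D.region (none, .back))) N T (ch_under S _) (ch_over S _)
    have hn : chF S (S.D.region (none, .back)) none = 0 := if_neg fun h => S.cut h
    have hn' : chB S (S.D.region (none, .back)) none = 1 := if_pos rfl
    have hl : chF S (S.D.region (none, .back)) (some S.l) = 1 := by
      rw [← ch_under, S.hl, hn']
    have hr : chF S (S.D.region (none, .back)) (some S.r) = 1 := by
      rw [← ch_over, S.hr, hn']
    rw [Finset.sum_eq_single (some S.r), Finset.sum_eq_single (some S.l), hl, hr, S.hl,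
      S.hr] at h0
    · simp only [N, T, Option.elim] at h0
      linarith
    · intro x _ hx
      rcases x with _ | v
      · rw [hn, zero_mul]
      · rcases h2 : S.D.underNext (some v) with _ | v'
        · exact absurd (S.D.underNext.injective (h2.trans S.hl.symm)) hx
        · simp only [N, T, Option.elim]
          rw [(hα v v' h2).2, sub_self, mul_zero]
    · intro h
      exact absurd (Finset.mem_univ _) h
    · intro x _ hx
      rcases x with _ | v
      · rw [hn, zero_mul]
      · rcases h2 : S.D.overNext (some v) with _ | v'
        · exact absurd (S.D.overNext.injective (h2.trans S.hr.symm)) hx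
        · simp only [N, T, Option.elim]
          rw [(hβ v v' h2).2, sub_self, mul_zero]
    · intro h
      exact absurd (Finset.mem_univ _) h
  let h : Option V × Corner → ℝ := fun c => match c with
    | (none, .left) => w S.l
    | (none, .right) => e S.r
    | (none, .front) => s a
    | (none, .back) => n S.l
    | (some v, .left) => w v
    | (some v, .right) => e v
    | (some v, .front) => n v
    | (some v, .back) => s v
  have h1 : ∀ v, h (v, .left) = h (S.D.underNext v, .left) := by
    rintro (_ | v)
    · rw [ha]
      exact hw
    · rcases h2 : S.D.underNext (some v) with _ | v'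
      · have : some v = some S.l := S.D.underNext.injective (h2.trans S.hl.symm)
        cases this
        rfl
      · exact (hα v v' h2).1
  have h2 : ∀ v, h (v, .right) = h (S.D.overNext v, .right) := by
    rintro (_ | v)
    · rw [hb]
      exact he
    · rcases h2 : S.D.overNext (some v) with _ | v'
      · have : some v = some S.r := S.D.overNext.injective (h2.trans S.hr.symm)
        cases this
        rfl
      · exact (hβ v v' h2).1
  have h3 : ∀ v, h (v, .front) = h (S.D.overNext v, .back) := by
    rintro (_ | v)
    · rw [hb]
      exact hs.symm
    · rcases h2 : S.D.overNext (some v) with _ | v'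
      · have : some v = some S.r := S.D.overNext.injective (h2.trans S.hr.symm)
        cases this
        exact hnn
      · exact (hβ v v' h2).2
  have h4 : ∀ v, h (v, .front) = h (S.D.underNext v, .back) := by
    rintro (_ | v)
    · rw [ha]
    · rcases h2 : S.D.underNext (some v) with _ | v'
      · have : some v = some S.l := S.D.underNext.injective (h2.trans S.hl.symm)
        cases this
        rfl
      · exact (hα v v' h2).2
  have hc := const_region S.D S.pos ℝ h h1 h2 h3 h4
  refine ⟨Quotient.lift (s := S.D.regionSetoid) h fun x y hxy => hc x y (Quotient.sound hxy),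
    fun v => ⟨rfl, rfl, rfl, rfl⟩⟩

theorem goalCutConn : GoalCutConn := by
  intro V _ _ S P hβ hα
  obtain ⟨a, ha⟩ := exists_none S.D.underNext S.hl
  obtain ⟨b, hb⟩ := exists_none S.D.overNext S.hr
  have hw : P S.l = P a := step_eq S.D.underNext S.hl ha P hα
  have he : P S.r = P b := step_eq S.D.overNext S.hr hb P hβ
  -- a function extended by a value at `none` is invariant
  have extα : ∀ x, (S.D.underNext x).elim (P S.l) P = x.elim (P S.l) P := by
    rintro (_ | v)
    · rw [ha]
      exact hw.symm
    · rcases h2 : S.D.underNext (some v) with _ | v'
      · have : some v = some S.l := S.D.underNext.injective (h2.trans S.hl.symm)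
        cases this
        rfl
      · exact (hα v v' h2).symm
  have extβ : ∀ x, (S.D.overNext x).elim (P S.r) P = x.elim (P S.r) P := by
    rintro (_ | v)
    · rw [hb]
      exact he.symm
    · rcases h2 : S.D.overNext (some v) with _ | v'
      · have : some v = some S.r := S.D.overNext.injective (h2.trans S.hr.symm)
        cases this
        rfl
      · exact (hβ v v' h2).symm
  by_cases hlr : P S.l = P S.r
  · intro v v'
    have huniv := S.connected {x | x.elim (P S.l) P = P v} ⟨some v, rfl⟩ (by
      intro x hx
      refine ⟨?_, ?_⟩
      · change (S.D.overNext x).elim (P S.l) P = P v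
        rw [hlr, extβ, ← hlr]
        exact hx
      · change (S.D.underNext x).elim (P S.l) P = P v
        rw [extα]
        exact hx)
    have : (some v' : Option V) ∈ {x : Option V | x.elim (P S.l) P = P v} := by
      rw [huniv]
      exact Set.mem_univ _
    exact this.symm
  · exfalso
    let χ := chF S (S.D.region (none, .front))
    let χ' := chB S (S.D.region (none, .front))
    have hn : χ none = 1 := if_pos rfl
    have hn' : χ' none = 0 := if_neg fun h => S.cut h.symm
    let z1 : Option V → ℝ := fun x => if x.elim (P S.l) P = P S.l then 1 else 0
    let z2 : Option V → ℝ := fun x => if x.elim (P S.r) P = P S.l then 1 else 0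
    have s1 : ∑ x, z1 x * (χ x - χ' x) = 0 := by
      have : ∑ x, z1 x * (χ x - χ' x) =
          ∑ x, (z1 (S.D.underNext x) * χ' (S.D.underNext x)) - ∑ x, z1 x * χ' x := by
        rw [← Finset.sum_sub_distrib]
        refine Finset.sum_congr rfl fun x _ => ?_
        have e1 : z1 (S.D.underNext x) = z1 x := by
          simp only [z1]
          rw [extα]
        have e2 : χ' (S.D.underNext x) = χ x := ch_under S _ x
        rw [e1, e2]
        ring
      rw [this, Equiv.sum_comp S.D.underNext (fun x => z1 x * χ' x), sub_self]
    have s2 : ∑ x, z2 x * (χ x - χ' x) = 0 := by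
      have : ∑ x, z2 x * (χ x - χ' x) =
          ∑ x, (z2 (S.D.overNext x) * χ' (S.D.overNext x)) - ∑ x, z2 x * χ' x := by
        rw [← Finset.sum_sub_distrib]
        refine Finset.sum_congr rfl fun x _ => ?_
        have e1 : z2 (S.D.overNext x) = z2 x := by
          simp only [z2]
          rw [extβ]
        have e2 : χ' (S.D.overNext x) = χ x := ch_over S _ x
        rw [e1, e2]
        ring
      rw [this, Equiv.sum_comp S.D.overNext (fun x => z2 x * χ' x), sub_self]
    have s3 : ∑ x, (z1 x * (χ x - χ' x) - z2 x * (χ x - χ' x)) = 1 := by
      rw [Finset.sum_eq_single none]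
      · have e1 : z1 none = 1 := if_pos rfl
        have e2 : z2 none = 0 := if_neg fun h => hlr h.symm
        rw [e1, e2, hn, hn']
        norm_num
      · intro x _ hx
        rcases x with _ | v
        · exact absurd rfl hx
        · have : z1 (some v) = z2 (some v) := rfl
          rw [this, sub_self]
      · intro h
        exact absurd (Finset.mem_univ _) h
    rw [Finset.sum_sub_distrib, s1, s2] at s3
    norm_num at s3

end Pool.Agent.Helper87.PG
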